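import Pool.Agent.Helper18_TNF.Stmts
import Pool.Agent.Helper36_TOR.Main

/-! Near-far block: linear algebra of the elements IsE, degree homomorphism. -/

set_option autoImplicit false

namespace Pool.Agent.TNF

open CategoryTheory Rep Representation Pool.Agent.TOR Pool.Agent.TOR.H59
open Pool.Agent.TOR96 Pool.Agent.TOR.H29 Pool.Agent.TOR.SA

section classes

variable {r g : ℕ}

theorem la_ne (i : Fin r) : (Fin.natAdd r (Fin.last g) : Fin (r + (g + 1))) ≠
    Fin.castAdd (g + 1) i := by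
  intro h
  have h1 := congrArg Fin.val h
  rw [Fin.val_natAdd, Fin.val_castAdd] at h1
  omega

theorem sf_cf (i : Fin r) (w : Hh (r + (g + 1))) :
    sf (cf r g i) w = - w (0, Fin.castAdd (g + 1) i) := by
  unfold cf
  rw [sf_single_left]
  simp

theorem sf_xf (i : Fin r) (w : Hh (r + (g + 1))) :
    sf (xf r g i) w = w (1, Fin.castAdd (g + 1) i) := by
  unfold xf
  rw [sf_single_left]
  simp

theorem sf_vn (w : Hh (r + (g + 1))) :
    sf (vn r g) w = - w (0, Fin.natAdd r (Fin.last g)) := by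
  unfold vn
  rw [sf_single_left]
  simp

theorem sf_cf_cf (i j : Fin r) : sf (cf r g i) (cf r g j) = 0 := by
  rw [sf_cf]; unfold cf
  rw [Pi.single_eq_of_ne (fun h => by
    have := congrArg Prod.fst h
    exact absurd (show (0 : Fin 2) = 1 from this) (by decide))]
  rfl

theorem sf_cf_vn (i : Fin r) : sf (cf r g i) (vn r g) = 0 := by
  rw [sf_cf]; unfold vn
  rw [Pi.single_eq_of_ne (fun h => by
    have := congrArg Prod.fst h
    exact absurd (show (0 : Fin 2) = 1 from this) (by decide))]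
  rfl

theorem sf_vn_cf (i : Fin r) : sf (vn r g) (cf r g i) = 0 := by
  rw [sf_swap, sf_cf_vn]; rfl

theorem sf_xf_cf (i j : Fin r) : sf (xf r g i) (cf r g j) = if i = j then 1 else 0 := by
  rw [sf_xf]; unfold cf
  split_ifs with h
  · subst h; rw [Pi.single_eq_same]
  · rw [Pi.single_eq_of_ne]
    intro h1
    have h2 := congrArg Prod.snd h1
    exact h (Fin.castAdd_injective _ _ h2)

theorem sf_xf_vn (i : Fin r) : sf (xf r g i) (vn r g) = 0 := by
  rw [sf_xf]; unfold vn
  rw [Pi.single_eq_of_ne]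
  intro h1
  have h2 := congrArg Prod.snd h1
  exact la_ne i h2.symm

/-- Lagrangian part -/
def Lm (r g : ℕ) (lam : Fin r → ℤ) : Hh (r + (g + 1)) := ∑ i, lam i • cf r g i

theorem sf_sum_left {n : ℕ} {ι : Type} (s : Finset ι) (f : ι → Hh n) (w : Hh n) :
    sf (∑ i ∈ s, f i) w = ∑ i ∈ s, sf (f i) w := by
  classical
  induction s using Finset.induction_on with
  | empty => rw [Finset.sum_empty, Finset.sum_empty, sf_zero_left]
  | insert a s ha ih => rw [Finset.sum_insert ha, Finset.sum_insert ha, sf_add_left, ih]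

theorem sf_sum_right {n : ℕ} {ι : Type} (s : Finset ι) (f : ι → Hh n) (w : Hh n) :
    sf w (∑ i ∈ s, f i) = ∑ i ∈ s, sf w (f i) := by
  classical
  induction s using Finset.induction_on with
  | empty => rw [Finset.sum_empty, Finset.sum_empty, sf_zero_right]
  | insert a s ha ih => rw [Finset.sum_insert ha, Finset.sum_insert ha, sf_add_right, ih]

theorem sf_Lm_right (lam : Fin r → ℤ) (w : Hh (r + (g + 1))) :
    sf w (Lm r g lam) = ∑ i, lam i * sf w (cf r g i) := by
  unfold Lm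
  rw [sf_sum_right]
  exact Finset.sum_congr rfl fun i _ => sf_smul_right _ _ _

theorem Lm_add (a b : Fin r → ℤ) : Lm r g (a + b) = Lm r g a + Lm r g b := by
  unfold Lm
  rw [← Finset.sum_add_distrib]
  exact Finset.sum_congr rfl fun i _ => add_smul _ _ _

theorem sf_Lm_add (a b : Fin r → ℤ) (w : Hh (r + (g + 1))) :
    sf w (Lm r g (a + b)) = sf w (Lm r g a) + sf w (Lm r g b) := by
  rw [Lm_add, sf_add_right]

/-- quadratic part -/
def Qp (r g : ℕ) (sig : Fin r → Fin r → ℤ) (y : Hh (r + (g + 1))) : Hh (r + (g + 1)) :=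
  ∑ i, ∑ j, (sig i j * sf y (cf r g i)) • cf r g j

theorem Qp_add_sig (a b : Fin r → Fin r → ℤ) (y : Hh (r + (g + 1))) :
    Qp r g (a + b) y = Qp r g a y + Qp r g b y := by
  unfold Qp
  rw [← Finset.sum_add_distrib]
  refine Finset.sum_congr rfl fun i _ => ?_
  rw [← Finset.sum_add_distrib]
  refine Finset.sum_congr rfl fun j _ => ?_
  rw [← add_smul, Pi.add_apply, Pi.add_apply, add_mul]

theorem Qp_add (a : Fin r → Fin r → ℤ) (y z : Hh (r + (g + 1))) :
    Qp r g a (y + z) = Qp r g a y + Qp r g a z := by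
  unfold Qp
  rw [← Finset.sum_add_distrib]
  refine Finset.sum_congr rfl fun i _ => ?_
  rw [← Finset.sum_add_distrib]
  refine Finset.sum_congr rfl fun j _ => ?_
  rw [← add_smul, sf_add_left, mul_add]

/-- the linear map -/
def EL (r g : ℕ) (lam : Fin r → ℤ) (sig : Fin r → Fin r → ℤ) (y : Hh (r + (g + 1))) :
    Hh (r + (g + 1)) :=
  y + sf y (vn r g) • Lm r g lam + sf y (Lm r g lam) • vn r g + Qp r g sig y

theorem isE_iff {lam : Fin r → ℤ} {sig : Fin r → Fin r → ℤ} {φ : St (r + (g + 1))} :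
    IsE r g lam sig φ ↔ (∀ i j, sig i j = sig j i) ∧ ∀ y, hact φ y = EL r g lam sig y := by
  unfold IsE
  refine and_congr_right fun _ => ⟨fun h y => ?_, fun h x => ?_⟩
  · obtain ⟨x, rfl⟩ := ev_surj y
    rw [hact_ev]
    exact h x
  · rw [← hact_ev, h]
    rfl

theorem sf_EL {lam : Fin r → ℤ} {sig : Fin r → Fin r → ℤ} (y z : Hh (r + (g + 1)))
    (h1 : ∀ i, sf (cf r g i) z = 0) (h2 : sf (vn r g) z = 0) :
    sf (EL r g lam sig y) z = sf y z := by
  unfold EL Lm Qp
  rw [sf_add_left, sf_add_left, sf_add_left, sf_smul_left, sf_smul_left, sf_sum_left,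
    sf_sum_left, h2]
  have h3 : ∑ i, sf (lam i • cf r g i) z = 0 :=
    Finset.sum_eq_zero fun i _ => by rw [sf_smul_left, h1, mul_zero]
  have h4 : ∑ i, sf (∑ j, (sig i j * sf y (cf r g i)) • cf r g j) z = 0 :=
    Finset.sum_eq_zero fun i _ => by
      rw [sf_sum_left]
      exact Finset.sum_eq_zero fun j _ => by rw [sf_smul_left, h1, mul_zero]
  rw [h3, h4]; ring

theorem sf_vn_vn : sf (vn r g) (vn r g) = 0 := sf_self _

theorem sf_cf_Lm (i : Fin r) (lam : Fin r → ℤ) : sf (cf r g i) (Lm r g lam) = 0 := by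
  rw [sf_Lm_right]
  exact Finset.sum_eq_zero fun j _ => by rw [sf_cf_cf, mul_zero]

theorem sf_vn_Lm (lam : Fin r → ℤ) : sf (vn r g) (Lm r g lam) = 0 := by
  rw [sf_Lm_right]
  exact Finset.sum_eq_zero fun j _ => by rw [sf_vn_cf, mul_zero]

theorem EL_comp (lam lam' : Fin r → ℤ) (sig sig' : Fin r → Fin r → ℤ) (y : Hh (r + (g + 1))) :
    EL r g lam sig (EL r g lam' sig' y) = EL r g (lam + lam') (sig + sig') y := by
  have h1 : sf (EL r g lam' sig' y) (vn r g) = sf y (vn r g) :=
    sf_EL y _ (fun i => sf_cf_vn i) sf_vn_vn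
  have h2 : sf (EL r g lam' sig' y) (Lm r g lam) = sf y (Lm r g lam) :=
    sf_EL y _ (fun i => sf_cf_Lm i lam) (sf_vn_Lm lam)
  have h3 : Qp r g sig (EL r g lam' sig' y) = Qp r g sig y := by
    unfold Qp
    refine Finset.sum_congr rfl fun i _ => Finset.sum_congr rfl fun j _ => ?_
    rw [sf_EL y _ (fun k => sf_cf_cf k i) (sf_vn_cf i)]
  change EL r g lam' sig' y + sf (EL r g lam' sig' y) (vn r g) • Lm r g lam +
    sf (EL r g lam' sig' y) (Lm r g lam) • vn r g + Qp r g sig (EL r g lam' sig' y) = _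
  rw [h1, h2, h3]
  unfold EL
  rw [Lm_add, sf_add_right, Qp_add_sig, smul_add, add_smul]
  abel

theorem EL_zero (y : Hh (r + (g + 1))) : EL r g 0 0 y = y := by
  unfold EL Lm Qp
  simp [sf_zero_right]

theorem IsE.mul {lam lam' : Fin r → ℤ} {sig sig' : Fin r → Fin r → ℤ} {φ ψ : St (r + (g + 1))}
    (h1 : IsE r g lam sig φ) (h2 : IsE r g lam' sig' ψ) :
    IsE r g (lam + lam') (sig + sig') (φ * ψ) := by
  rw [isE_iff] at *
  refine ⟨fun i j => ?_, fun y => ?_⟩
  · rw [Pi.add_apply, Pi.add_apply, Pi.add_apply, Pi.add_apply, h1.1 i j, h2.1 i j]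
  · rw [hact_mul, h2.2, h1.2, EL_comp]

theorem IsE.one : IsE r g 0 0 (1 : St (r + (g + 1))) := by
  rw [isE_iff]
  exact ⟨fun _ _ => rfl, fun y => by rw [hact_one, EL_zero]⟩

theorem IsE.inv {lam : Fin r → ℤ} {sig : Fin r → Fin r → ℤ} {φ : St (r + (g + 1))}
    (h : IsE r g lam sig φ) : IsE r g (-lam) (-sig) φ⁻¹ := by
  rw [isE_iff] at *
  refine ⟨fun i j => ?_, fun y => ?_⟩
  · rw [Pi.neg_apply, Pi.neg_apply, Pi.neg_apply, Pi.neg_apply, h.1 i j]
  · have h1 : hact φ (EL r g (-lam) (-sig) y) = y := by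
      rw [h.2, EL_comp, add_neg_cancel, add_neg_cancel, EL_zero]
    conv_lhs => rw [← h1]
    rw [← hact_mul, inv_mul_cancel, hact_one]

/-- the coefficients -/
noncomputable def c1 (φ : St (r + (g + 1))) : Fin r → ℤ := fun i =>
  hact φ (xf r g i) (1, Fin.natAdd r (Fin.last g))

noncomputable def c2 (φ : St (r + (g + 1))) : Fin r → Fin r → ℤ := fun i j =>
  hact φ (xf r g i) (1, Fin.castAdd (g + 1) j)

theorem EL_xf (lam : Fin r → ℤ) (sig : Fin r → Fin r → ℤ) (i : Fin r) :
    EL r g lam sig (xf r g i) = xf r g i + lam i • vn r g + ∑ j, sig i j • cf r g j := by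
  unfold EL Qp
  rw [sf_xf_vn, zero_smul, add_zero, sf_Lm_right]
  congr 1
  · congr 2
    rw [Finset.sum_eq_single i]
    · rw [sf_xf_cf, if_pos rfl, mul_one]
    · intro j _ hj
      rw [sf_xf_cf, if_neg (Ne.symm hj), mul_zero]
    · intro h; exact absurd (Finset.mem_univ _) h
  · rw [Finset.sum_eq_single i]
    · refine Finset.sum_congr rfl fun j _ => ?_
      rw [sf_xf_cf, if_pos rfl, mul_one]
    · intro j _ hj
      refine Finset.sum_eq_zero fun k _ => ?_
      rw [sf_xf_cf, if_neg (Ne.symm hj), mul_zero, zero_smul]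
    · intro h; exact absurd (Finset.mem_univ _) h

theorem xf_one (i : Fin r) (k : Fin (r + (g + 1))) : xf r g i (1, k) = 0 := by
  unfold xf
  rw [Pi.single_eq_of_ne]
  intro h
  have := congrArg Prod.fst h
  exact absurd (show (1 : Fin 2) = 0 from this) (by decide)

theorem cf_la (i : Fin r) : cf r g i (1, Fin.natAdd r (Fin.last g)) = 0 := by
  unfold cf
  rw [Pi.single_eq_of_ne]
  intro h
  exact la_ne i (congrArg Prod.snd h)

theorem vn_la : vn r g (1, Fin.natAdd r (Fin.last g)) = 1 := by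
  unfold vn; rw [Pi.single_eq_same]

theorem vn_lo (i : Fin r) : vn r g (1, Fin.castAdd (g + 1) i) = 0 := by
  unfold vn
  rw [Pi.single_eq_of_ne]
  intro h
  exact la_ne i (congrArg Prod.snd h).symm

theorem cf_lo (i j : Fin r) : cf r g i (1, Fin.castAdd (g + 1) j) = if i = j then 1 else 0 := by
  unfold cf
  split_ifs with h
  · subst h; rw [Pi.single_eq_same]
  · rw [Pi.single_eq_of_ne]
    intro h1
    exact h (Fin.castAdd_injective _ _ (congrArg Prod.snd h1)).symm

theorem IsE.c1_eq {lam : Fin r → ℤ} {sig : Fin r → Fin r → ℤ} {φ : St (r + (g + 1))}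
    (h : IsE r g lam sig φ) : c1 φ = lam := by
  rw [isE_iff] at h
  funext i
  unfold c1
  rw [h.2, EL_xf, Pi.add_apply, Pi.add_apply, xf_one, Pi.smul_apply, vn_la, Finset.sum_apply,
    Finset.sum_eq_zero fun j _ => by rw [Pi.smul_apply, cf_la, smul_zero]]
  simp

theorem IsE.c2_eq {lam : Fin r → ℤ} {sig : Fin r → Fin r → ℤ} {φ : St (r + (g + 1))}
    (h : IsE r g lam sig φ) : c2 φ = sig := by
  rw [isE_iff] at h
  funext i j
  unfold c2
  rw [h.2, EL_xf, Pi.add_apply, Pi.add_apply, xf_one, Pi.smul_apply, vn_lo, Finset.sum_apply,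
    Finset.sum_eq_single j]
  · rw [Pi.smul_apply, cf_lo, if_pos rfl]; simp
  · intro k _ hk
    rw [Pi.smul_apply, cf_lo, if_neg hk, smul_zero]
  · intro h; exact absurd (Finset.mem_univ _) h

theorem isE_zero_iff {φ : St (r + (g + 1))} : IsE r g 0 0 φ ↔ φ ∈ IT (r + (g + 1)) := by
  rw [isE_iff, mem_IT_iff]
  constructor
  · rintro ⟨_, h⟩ x
    rw [← hact_ev, h, EL_zero]
  · intro h
    refine ⟨fun _ _ => rfl, fun y => ?_⟩
    obtain ⟨x, rfl⟩ := ev_surj y
    rw [hact_ev, h, EL_zero]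

/-- the group of the elements E -/
def GE (r g : ℕ) : Subgroup (St (r + (g + 1))) where
  carrier := {φ | ∃ lam sig, IsE r g lam sig φ}
  one_mem' := ⟨0, 0, IsE.one⟩
  mul_mem' := by
    rintro a b ⟨l, s, h⟩ ⟨l', s', h'⟩
    exact ⟨_, _, h.mul h'⟩
  inv_mem' := by
    rintro a ⟨l, s, h⟩
    exact ⟨_, _, h.inv⟩

theorem GE_spec (φ : GE r g) : IsE r g (c1 φ.1) (c2 φ.1) φ.1 := by
  obtain ⟨l, s, h⟩ := φ.2
  rw [h.c1_eq, h.c2_eq]
  exact h

theorem IT_le_GE : IT (r + (g + 1)) ≤ GE r g := fun _ hφ => ⟨0, 0, isE_zero_iff.2 hφ⟩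

/-- degree -/
noncomputable def dE (r g : ℕ) : GE r g →* Multiplicative ((Fin r → ℤ) × (Fin r → Fin r → ℤ)) where
  toFun φ := Multiplicative.ofAdd (c1 φ.1, c2 φ.1)
  map_one' := by
    have h : IsE r g 0 0 ((1 : GE r g) : St (r + (g + 1))) := IsE.one
    rw [h.c1_eq, h.c2_eq]
    rfl
  map_mul' := by
    intro a b
    have h := (GE_spec a).mul (GE_spec b)
    have h1 : c1 ((a * b : GE r g) : St (r + (g + 1))) = c1 a.1 + c1 b.1 := h.c1_eq
    have h2 : c2 ((a * b : GE r g) : St (r + (g + 1))) = c2 a.1 + c2 b.1 := h.c2_eq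
    rw [h1, h2]
    rfl

theorem dE_apply (φ : GE r g) : dE r g φ = Multiplicative.ofAdd (c1 φ.1, c2 φ.1) := rfl

theorem dE_eq {lam : Fin r → ℤ} {sig : Fin r → Fin r → ℤ} {φ : GE r g}
    (h : IsE r g lam sig φ.1) : dE r g φ = Multiplicative.ofAdd (lam, sig) := by
  rw [dE_apply, h.c1_eq, h.c2_eq]

theorem dE_eq_one (φ : GE r g) : dE r g φ = 1 ↔ φ.1 ∈ IT (r + (g + 1)) := by
  rw [← isE_zero_iff]
  constructor
  · intro h
    have h1 := GE_spec φ
    rw [dE_apply] at h
    have h2 : (c1 φ.1, c2 φ.1) = ((0 : Fin r → ℤ), (0 : Fin r → Fin r → ℤ)) :=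
      Multiplicative.ofAdd.injective h
    have h3 : c1 φ.1 = 0 := congrArg Prod.fst h2
    have h4 : c2 φ.1 = 0 := congrArg Prod.snd h2
    rw [h3, h4] at h1
    exact h1
  · intro h
    rw [dE_eq h]; rfl

/-- conjugation -/
theorem IsE.conj {lam : Fin r → ℤ} {sig : Fin r → Fin r → ℤ} {φ : St (r + (g + 1))}
    (h : IsE r g lam sig φ) (ψ : St (r + (g + 1))) (hv : hact ψ (vn r g) = vn r g)
    (M : Fin r → Fin r → ℤ) (hM : ∀ i, hact ψ (cf r g i) = ∑ k, M i k • cf r g k) :
    IsE r g (fun k => ∑ i, lam i * M i k)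
      (fun k k' => ∑ i, ∑ j, sig i j * M i k * M j k') (ψ * φ * ψ⁻¹) := by
  rw [isE_iff] at *
  refine ⟨fun k k' => ?_, fun y => ?_⟩
  · rw [Finset.sum_comm]
    refine Finset.sum_congr rfl fun i _ => Finset.sum_congr rfl fun j _ => ?_
    rw [h.1 j i]; ring
  · obtain ⟨z, rfl⟩ : ∃ z, y = hact ψ z := ⟨hact ψ⁻¹ y, by
      rw [← hact_mul, mul_inv_cancel, hact_one]⟩
    have h1 : hact (ψ * φ * ψ⁻¹) (hact ψ z) = hact ψ (hact φ z) := by
      rw [← hact_mul, ← hact_mul]
      congr 1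
      group
    have hs : ∀ w, sf (hact ψ z) (hact ψ w) = sf z w := fun w => sf_hact ψ z w
    have hL : hact ψ (Lm r g lam) = Lm r g (fun k => ∑ i, lam i * M i k) := by
      unfold Lm
      have e1 : hact ψ (∑ i, lam i • cf r g i) = ∑ i, lam i • hact ψ (cf r g i) := by
        change hactH ψ _ = _
        rw [map_sum]
        exact Finset.sum_congr rfl fun i _ => map_zsmul (hactH ψ) _ _
      rw [e1]
      have e2 : ∀ i, lam i • hact ψ (cf r g i) = ∑ k, (lam i * M i k) • cf r g k := by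
        intro i
        rw [hM, Finset.smul_sum]
        exact Finset.sum_congr rfl fun k _ => by rw [mul_smul]
      rw [Finset.sum_congr rfl fun i _ => e2 i, Finset.sum_comm]
      exact Finset.sum_congr rfl fun k _ => by rw [Finset.sum_smul]
    have hQ : hact ψ (Qp r g sig z) =
        Qp r g (fun k k' => ∑ i, ∑ j, sig i j * M i k * M j k') (hact ψ z) := by
      unfold Qp
      have e1 : hact ψ (∑ i, ∑ j, (sig i j * sf z (cf r g i)) • cf r g j) =
          ∑ i, ∑ j, (sig i j * sf z (cf r g i)) • hact ψ (cf r g j) := by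
        change hactH ψ _ = _
        rw [map_sum]
        refine Finset.sum_congr rfl fun i _ => ?_
        rw [map_sum]
        exact Finset.sum_congr rfl fun j _ => map_zsmul (hactH ψ) _ _
      rw [e1]
      have e2 : ∀ i, sf z (cf r g i) = ∑ k, M i k * sf (hact ψ z) (cf r g k) := by
        intro i
        rw [← hs, hM, sf_sum_right]
        exact Finset.sum_congr rfl fun k _ => sf_smul_right _ _ _
      have e3 : ∀ i j, (sig i j * sf z (cf r g i)) • hact ψ (cf r g j) =
          ∑ k, ∑ k', (sig i j * M i k * M j k' * sf (hact ψ z) (cf r g k)) • cf r g k' := by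
        intro i j
        rw [e2, hM, Finset.mul_sum, Finset.sum_smul]
        refine Finset.sum_congr rfl fun k _ => ?_
        rw [Finset.smul_sum]
        refine Finset.sum_congr rfl fun k' _ => ?_
        rw [smul_smul]
        congr 1
        ring
      simp_rw [e3]
      have e4 : ∀ k k', ((∑ i, ∑ j, sig i j * M i k * M j k') * sf (hact ψ z) (cf r g k)) •
          cf r g k' = ∑ i, ∑ j,
            (sig i j * M i k * M j k' * sf (hact ψ z) (cf r g k)) • cf r g k' := by
        intro k k'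
        rw [Finset.sum_mul, Finset.sum_smul]
        refine Finset.sum_congr rfl fun i _ => ?_
        rw [Finset.sum_mul, Finset.sum_smul]
      simp_rw [e4]
      -- reorder sums
      calc ∑ i, ∑ j, ∑ k, ∑ k', (sig i j * M i k * M j k' * sf (hact ψ z) (cf r g k)) • cf r g k'
          = ∑ i, ∑ k, ∑ j, ∑ k', (sig i j * M i k * M j k' * sf (hact ψ z) (cf r g k)) •
              cf r g k' := Finset.sum_congr rfl fun i _ => Finset.sum_comm
        _ = ∑ k, ∑ i, ∑ j, ∑ k', (sig i j * M i k * M j k' * sf (hact ψ z) (cf r g k)) •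
              cf r g k' := Finset.sum_comm
        _ = ∑ k, ∑ i, ∑ k', ∑ j, (sig i j * M i k * M j k' * sf (hact ψ z) (cf r g k)) •
              cf r g k' := Finset.sum_congr rfl fun k _ => Finset.sum_congr rfl fun i _ =>
                Finset.sum_comm
        _ = ∑ k, ∑ k', ∑ i, ∑ j, (sig i j * M i k * M j k' * sf (hact ψ z) (cf r g k)) •
              cf r g k' := Finset.sum_congr rfl fun k _ => Finset.sum_comm
    rw [h1, h.2]
    unfold EL
    rw [hact_add, hact_add, hact_add, hact_smul, hact_smul, hv, hL, hQ]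
    congr 2
    · congr 2
      rw [← hs, hv]
    · congr 1
      rw [← hs, hL]

end classes

end Pool.Agent.TNF
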