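import Pool.Agent.Helper18_TNF.Lin

/-! NEE: quasi-unipotence of E_(v,c_l) on the near classes, from PRM, TWO, REL. -/

set_option autoImplicit false

namespace Pool.Agent.TNF

open CategoryTheory Rep Representation Pool.Agent.TOR Pool.Agent.TOR.H59
open Pool.Agent.TOR96 Pool.Agent.TOR.H29 Pool.Agent.TOR.SA

section gen

variable {G U : Type} [Group G] [CommGroup U] (N : Subgroup G) [N.Normal] (Γ : Subgroup G)

/-- the automorphism induced by a conjugation -/
theorem conj_equiv (deg : Γ →* U) (hker : ∀ a : Γ, deg a = 1 ↔ (a : G) ∈ N)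
    (hs : Function.Surjective deg) (ψ : G) (h1 : ∀ a ∈ Γ, ψ * a * ψ⁻¹ ∈ Γ)
    (h2 : ∀ a ∈ Γ, ψ⁻¹ * a * ψ ∈ Γ) :
    ∃ σ : U ≃* U, ∀ a : Γ, σ (deg a) = deg ⟨ψ * a * ψ⁻¹, h1 a a.2⟩ := by
  choose s0 hs0 using hs
  let c : Γ →* Γ :=
    { toFun := fun a => ⟨ψ * a * ψ⁻¹, h1 a a.2⟩
      map_one' := Subtype.ext (by simp)
      map_mul' := fun a b => Subtype.ext (by
        change ψ * ((a : G) * (b : G)) * ψ⁻¹ = ψ * a * ψ⁻¹ * (ψ * b * ψ⁻¹)
        group) }
  let c' : Γ →* Γ :=
    { toFun := fun a => ⟨ψ⁻¹ * a * ψ, h2 a a.2⟩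
      map_one' := Subtype.ext (by simp)
      map_mul' := fun a b => Subtype.ext (by
        change ψ⁻¹ * ((a : G) * (b : G)) * ψ = ψ⁻¹ * a * ψ * (ψ⁻¹ * b * ψ)
        group) }
  have hc : ∀ a : Γ, deg a = 1 → deg (c a) = 1 := by
    intro a ha
    rw [hker] at ha ⊢
    exact ‹N.Normal›.conj_mem _ ha ψ
  have hc' : ∀ a : Γ, deg a = 1 → deg (c' a) = 1 := by
    intro a ha
    rw [hker] at ha ⊢
    have := ‹N.Normal›.conj_mem _ ha ψ⁻¹
    rwa [inv_inv] at this
  have hwell : ∀ (f : Γ →* Γ), (∀ a, deg a = 1 → deg (f a) = 1) → ∀ a b, deg a = deg b →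
      deg (f a) = deg (f b) := by
    intro f hf a b hab
    have h3 : deg (f (a * b⁻¹)) = 1 := hf _ (by rw [map_mul, map_inv, hab, mul_inv_cancel])
    rwa [map_mul, map_mul, map_inv, map_inv, mul_inv_eq_one] at h3
  have e1 : ∀ a, c' (c a) = a := fun a => Subtype.ext (by
    change ψ⁻¹ * (ψ * a * ψ⁻¹) * ψ = a
    group)
  have e2 : ∀ a, c (c' a) = a := fun a => Subtype.ext (by
    change ψ * (ψ⁻¹ * a * ψ) * ψ⁻¹ = a
    group)
  refine ⟨{ toFun := fun u => deg (c (s0 u))
            invFun := fun u => deg (c' (s0 u))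
            left_inv := fun u => ?_
            right_inv := fun u => ?_
            map_mul' := fun u v => ?_ }, fun a => ?_⟩
  · change deg (c' (s0 (deg (c (s0 u))))) = u
    rw [hwell c' hc' _ (c (s0 u)) (hs0 _), e1, hs0]
  · change deg (c (s0 (deg (c' (s0 u))))) = u
    rw [hwell c hc _ (c' (s0 u)) (hs0 _), e2, hs0]
  · rw [← map_mul, ← map_mul]
    exact hwell c hc _ _ (by rw [hs0, map_mul, hs0, hs0])
  · change deg (c (s0 (deg a))) = deg (c a)
    exact hwell c hc _ _ (hs0 _)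

omit [N.Normal] in
/-- the action of U induced by a representation trivial on the kernel -/
theorem exists_rho {V : Type} [AddCommGroup V] [Module ℚ V] (R : G →* Module.End ℚ V)
    (hR : ∀ a ∈ N, R a = 1) (deg : Γ →* U) (hker : ∀ a : Γ, deg a = 1 ↔ (a : G) ∈ N)
    (hs : Function.Surjective deg) : ∃ ρ : U →* Module.End ℚ V, ∀ a : Γ, ρ (deg a) = R a := by
  have hwell : ∀ g h : Γ, deg g = deg h → R (g : G) = R (h : G) := by
    intro g h hgh
    have h1 : (g : G) = (h : G) * ((h : G)⁻¹ * (g : G)) := by group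
    have h2 : ((h : G)⁻¹ * (g : G)) ∈ N := by
      have := (hker (h⁻¹ * g)).1 (by rw [map_mul, map_inv, hgh, inv_mul_cancel])
      exact this
    rw [h1, map_mul, hR _ h2, mul_one]
  choose s0 hs0 using hs
  refine ⟨{ toFun := fun m => R (s0 m : G)
            map_one' := ?_
            map_mul' := fun a b => ?_ }, fun a => hwell _ _ (hs0 _)⟩
  · have h := hwell (s0 1) 1 (by rw [hs0, map_one])
    rw [h]
    exact map_one _
  · have h := hwell (s0 (a * b)) (s0 a * s0 b) (by rw [map_mul, hs0, hs0, hs0])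
    rw [h]
    exact map_mul _ _ _

end gen

/-- annihilator of a vector -/
noncomputable def Ann {U V : Type} [CommGroup U] [AddCommGroup V] [Module ℚ V]
    (ρ : U →* Module.End ℚ V) (y : V) : Ideal (MonoidAlgebra ℚ U) where
  carrier := {p | MonoidAlgebra.lift ℚ (Module.End ℚ V) U ρ p y = 0}
  add_mem' := by
    intro a b ha hb
    change MonoidAlgebra.lift ℚ (Module.End ℚ V) U ρ (a + b) y = 0
    have ha' : MonoidAlgebra.lift ℚ (Module.End ℚ V) U ρ a y = 0 := ha
    have hb' : MonoidAlgebra.lift ℚ (Module.End ℚ V) U ρ b y = 0 := hb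
    rw [map_add, LinearMap.add_apply, ha', hb', add_zero]
  zero_mem' := by
    change MonoidAlgebra.lift ℚ (Module.End ℚ V) U ρ 0 y = 0
    rw [map_zero]; rfl
  smul_mem' := by
    intro a b hb
    change MonoidAlgebra.lift ℚ (Module.End ℚ V) U ρ (a * b) y = 0
    have hb' : MonoidAlgebra.lift ℚ (Module.End ℚ V) U ρ b y = 0 := hb
    rw [map_mul, Module.End.mul_apply, hb', map_zero]

theorem mem_Ann {U V : Type} [CommGroup U] [AddCommGroup V] [Module ℚ V]
    (ρ : U →* Module.End ℚ V) (y : V) (p : MonoidAlgebra ℚ U) :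
    p ∈ Ann ρ y ↔ MonoidAlgebra.lift ℚ (Module.End ℚ V) U ρ p y = 0 := Iff.rfl

theorem single_mem_Ann {U V : Type} [CommGroup U] [AddCommGroup V] [Module ℚ V]
    (ρ : U →* Module.End ℚ V) (y : V) (u : U) :
    (MonoidAlgebra.single u 1 - 1 : MonoidAlgebra ℚ U) ∈ Ann ρ y ↔ ρ u y = y := by
  rw [mem_Ann, map_sub, map_one, MonoidAlgebra.lift_single, one_smul, LinearMap.sub_apply,
    Module.End.one_apply, sub_eq_zero]

theorem lift_conj {U V : Type} [CommGroup U] [AddCommGroup V] [Module ℚ V]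
    (ρ : U →* Module.End ℚ V) (σ : U →* U) (A B : Module.End ℚ V)
    (h : ∀ u, ρ (σ u) = A * ρ u * B) (p : MonoidAlgebra ℚ U) :
    MonoidAlgebra.lift ℚ (Module.End ℚ V) U ρ (MonoidAlgebra.mapDomainRingHom ℚ σ p) =
      A * MonoidAlgebra.lift ℚ (Module.End ℚ V) U ρ p * B := by
  induction p using MonoidAlgebra.induction_linear with
  | zero => rw [map_zero, map_zero, mul_zero, zero_mul]
  | add a b ha hb => rw [map_add, map_add, map_add, ha, hb, mul_add, add_mul]
  | single m c =>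
    rw [MonoidAlgebra.mapDomainRingHom_apply, MonoidAlgebra.mapDomain_single,
      MonoidAlgebra.lift_single, MonoidAlgebra.lift_single, h, mul_smul_comm, smul_mul_assoc]

theorem Ann_conj {U V : Type} [CommGroup U] [AddCommGroup V] [Module ℚ V]
    (ρ : U →* Module.End ℚ V) (σ : U →* U) (A B : Module.End ℚ V)
    (h : ∀ u, ρ (σ u) = A * ρ u * B) (y : V) (hy : B y = y) (p : MonoidAlgebra ℚ U)
    (hp : p ∈ Ann ρ y) : MonoidAlgebra.mapDomainRingHom ℚ σ p ∈ Ann ρ y := by
  rw [mem_Ann] at hp ⊢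
  rw [lift_conj ρ σ A B h, Module.End.mul_apply, Module.End.mul_apply, hy, hp, map_zero]

/-- far elements fix the near classes -/
theorem far_fix {r g : ℕ} (q : ℕ) {ψ : St (r + (g + 1))} (h : Far r g ψ)
    (x : groupHomology (Rep.trivial ℚ (IT (g + 1)) ℚ) q) :
    cR (IT (r + (g + 1))) q ψ (hn (upI r (g + 1)) q x) = hn (upI r (g + 1)) q x := by
  rw [← hn_nuH]
  congr 1
  have : nuH ψ = upI r (g + 1) := by
    refine MonoidHom.ext fun t => Subtype.ext ?_
    change ((cN (IT (r + (g + 1))) ψ (upI r (g + 1) t) : IT (r + (g + 1))) :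
      St (r + (g + 1))) = (upI r (g + 1) t : IT (r + (g + 1)))
    rw [cN_coe, upI_coe, h t.1, mul_assoc, mul_inv_cancel, mul_one]
  rw [this]

theorem far_inv {r g : ℕ} {ψ : St (r + (g + 1))} (h : Far r g ψ) : Far r g ψ⁻¹ := by
  intro χ
  have := h χ
  rw [inv_mul_eq_iff_eq_mul, ← mul_assoc, this, mul_assoc, mul_inv_cancel, mul_one]

/-- matrix of a far symmetry -/
theorem mat_sum {r g : ℕ} (j l : Fin r) (m : ℤ) (i : Fin r) :
    (∑ k, ((if i = k then (1 : ℤ) else 0) + if i = j ∧ k = l then m else 0) • cf r g k) =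
      cf r g i + if i = j then m • cf r g l else 0 := by
  simp_rw [add_smul]
  rw [Finset.sum_add_distrib]
  congr 1
  · rw [Finset.sum_eq_single i]
    · rw [if_pos rfl, one_smul]
    · intro b _ hb
      rw [if_neg (Ne.symm hb), zero_smul]
    · intro h; exact absurd (Finset.mem_univ _) h
  · split_ifs with h
    · rw [Finset.sum_eq_single l]
      · rw [if_pos ⟨h, rfl⟩]
      · intro b _ hb
        rw [if_neg (fun h' => hb h'.2), zero_smul]
      · intro h; exact absurd (Finset.mem_univ _) h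
    · refine Finset.sum_eq_zero fun k _ => ?_
      rw [if_neg (fun h' => h h'.1), zero_smul]

theorem mat_single {r : ℕ} (j l : Fin r) (m : ℤ) (i : Fin r) :
    (fun k => ∑ i', (Pi.single i (1 : ℤ) : Fin r → ℤ) i' *
      ((if i' = k then (1 : ℤ) else 0) + if i' = j ∧ k = l then m else 0)) =
      Pi.single i 1 + if i = j then m • Pi.single l 1 else 0 := by
  funext k
  rw [Finset.sum_eq_single i]
  · rw [Pi.single_eq_same, one_mul, Pi.add_apply]
    congr 1
    · rw [Pi.single_apply]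
      by_cases h : i = k
      · rw [if_pos h, if_pos h.symm]
      · rw [if_neg h, if_neg (Ne.symm h)]
    · by_cases h : i = j
      · rw [if_pos h, Pi.smul_apply, Pi.single_apply, smul_eq_mul]
        by_cases hk : k = l
        · rw [if_pos ⟨h, hk⟩, if_pos hk, mul_one]
        · rw [if_neg (fun h' => hk h'.2), if_neg hk, mul_zero]
      · rw [if_neg (fun h' => h h'.1), if_neg h]; rfl
  · intro b _ hb
    rw [Pi.single_eq_of_ne hb, zero_mul]
  · intro h; exact absurd (Finset.mem_univ _) h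

/-- the elements with λ = 0 -/
noncomputable def U0 (r g : ℕ) : Subgroup (dE r g).range :=
  (((AddMonoidHom.toMultiplicative
    (AddMonoidHom.fst (Fin r → ℤ) (Fin r → Fin r → ℤ))).comp (dE r g).range.subtype)).ker

theorem mem_U0 {r g : ℕ} (a : GE r g) : (dE r g).rangeRestrict a ∈ U0 r g ↔ c1 a.1 = 0 := by
  unfold U0
  rw [MonoidHom.mem_ker]
  change Multiplicative.ofAdd (c1 a.1) = 1 ↔ _
  rw [ofAdd_eq_one]

section loc

variable {U : Type} [CommGroup U] (P : Ideal (MonoidAlgebra ℚ U)) [P.IsPrime]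

theorem unit_of {a : U} (h : (MonoidAlgebra.single a 1 - 1 : MonoidAlgebra ℚ U) ∉ P) :
    IsUnit ((algebraMap (MonoidAlgebra ℚ U) (Localization.AtPrime P))
      (MonoidAlgebra.single a 1) - 1) := by
  have h1 := IsLocalization.map_units (M := P.primeCompl) (Localization.AtPrime P)
    (⟨MonoidAlgebra.single a 1 - 1, h⟩ : P.primeCompl)
  rw [← map_one (algebraMap (MonoidAlgebra ℚ U) (Localization.AtPrime P)), ← map_sub]
  exact h1

omit [P.IsPrime] in
theorem not_mem_inv {a : U} (h : (MonoidAlgebra.single a 1 - 1 : MonoidAlgebra ℚ U) ∉ P) :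
    (MonoidAlgebra.single a⁻¹ 1 - 1 : MonoidAlgebra ℚ U) ∉ P := by
  intro h1
  apply h
  have h2 : (MonoidAlgebra.single a 1 - 1 : MonoidAlgebra ℚ U) =
      (-MonoidAlgebra.single a 1) * (MonoidAlgebra.single a⁻¹ 1 - 1) := by
    rw [mul_sub, neg_mul, MonoidAlgebra.single_mul_single, mul_inv_cancel, mul_one, mul_one,
      ← MonoidAlgebra.one_def]
    ring
  rw [h2]
  exact P.mul_mem_left _ h1

end loc

/-- product of degrees -/
theorem c1_prod {r g : ℕ} (f : Fin r → GE r g) (hf : ∀ i, c1 (f i).1 = Pi.single i 1)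
    (S : Finset (Fin r)) (a : GE r g)
    (ha : (dE r g).rangeRestrict a = ∏ j ∈ S, (dE r g).rangeRestrict (f j)) :
    c1 a.1 = fun i => if i ∈ S then (1 : ℤ) else 0 := by
  have h1 := congrArg (fun z : (dE r g).range => (z : Multiplicative ((Fin r → ℤ) ×
    (Fin r → Fin r → ℤ)))) ha
  have h2 : dE r g a = ∏ j ∈ S, dE r g (f j) := by
    refine h1.trans ?_
    change (dE r g).range.subtype _ = _
    rw [map_prod]
    rfl
  have h3 : c1 a.1 = ∑ j ∈ S, c1 (f j).1 := by
    have h4 := congrArg (fun z : Multiplicative ((Fin r → ℤ) × (Fin r → Fin r → ℤ)) =>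
          (Multiplicative.toAdd z).1) h2
    refine h4.trans ?_
    change (AddMonoidHom.fst _ _) (Multiplicative.toAdd (∏ j ∈ S, dE r g (f j))) = _
    rw [toAdd_prod, map_sum]
    rfl
  rw [h3]
  funext i
  rw [Finset.sum_apply]
  simp_rw [hf]
  rw [Finset.sum_pi_single]

/-- no prime containing the annihilator avoids all the classes of the pushes -/
theorem no_prime {r g q : ℕ} (hqr : q < r) (Gs : Type) [Group Gs] (s : Gs →* St (r + (g + 1)))
    (ι : IT (g + 1) →* Gs) (W : Finset (Fin r) → Set Gs) (hsι : ∀ φ, s (ι φ) = up r (g + 1) φ)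
    (hsE : ∀ h : Gs, ∃ lam sig, IsE r g lam sig (s h)) (ε : ℤ) (hε : ε = 1 ∨ ε = -1)
    (hW : ∀ S : Finset (Fin r), S.Nonempty → ∀ w ∈ W S,
      ∃ sig, IsE r g (fun i => if i ∈ S then ε else 0) sig (s w))
    (hvan : ∀ (R : Type) [CommRing R] (u : Gs →* R),
      (∀ S : Finset (Fin r), S.Nonempty → ∀ w ∈ W S, IsUnit (u w - 1)) →
      ∀ q < r, Van (chRep R u) q)
    (hker : ∀ a : GE r g, (dE r g).rangeRestrict a = 1 ↔ (a : St (r + (g + 1))) ∈
      IT (r + (g + 1)))
    (ρ : (dE r g).range →* Module.End ℚ (groupHomology (Rep.trivial ℚ (IT (r + (g + 1))) ℚ) q))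
    (hρ : ∀ a : GE r g, ρ ((dE r g).rangeRestrict a) = cR (IT (r + (g + 1))) q a)
    (x : groupHomology (Rep.trivial ℚ (IT (g + 1)) ℚ) q)
    (f : Fin r → GE r g) (hf : ∀ i, c1 (f i).1 = Pi.single i 1)
    (P : Ideal (MonoidAlgebra ℚ (dE r g).range)) (hPp : P.IsPrime)
    (hIP : Ann ρ (hn (upI r (g + 1)) q x) ≤ P)
    (hS : ∀ S : Finset (Fin r), S.Nonempty → ∀ s ∈ U0 r g,
        (MonoidAlgebra.single ((∏ j ∈ S, (dE r g).rangeRestrict (f j)) * s) 1 - 1 :
          MonoidAlgebra ℚ (dE r g).range) ∉ P) : False := by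
  let jj : Gs →* GE r g := s.codRestrict (GE r g) (fun h => hsE h)
  have hjj : ∀ h, (jj h : St (r + (g + 1))) = s h := fun _ => rfl
  let u' : GE r g →* Localization.AtPrime P :=
    (algebraMap (MonoidAlgebra ℚ (dE r g).range) (Localization.AtPrime P) :
      MonoidAlgebra ℚ (dE r g).range →* Localization.AtPrime P).comp
      (uL (dE r g).rangeRestrict⁻¹)
  have hv := hvan (Localization.AtPrime P) (u'.comp jj) (by
    intro S hSn w hw
    obtain ⟨sg, hsg⟩ := hW S hSn w hw
    have hu : (u'.comp jj) w = algebraMap (MonoidAlgebra ℚ (dE r g).range)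
        (Localization.AtPrime P)
        (MonoidAlgebra.single ((dE r g).rangeRestrict (jj w))⁻¹ 1) := rfl
    rw [hu]
    apply unit_of P
    obtain ⟨b, hb⟩ := (dE r g).rangeRestrict_surjective (∏ j ∈ S, (dE r g).rangeRestrict (f j))
    have hb1 := c1_prod f hf S b hb
    have hw1 : c1 (jj w).1 = fun i => if i ∈ S then ε else 0 := hsg.c1_eq
    rcases hε with rfl | rfl
    · apply not_mem_inv P
      have h2 := hS S hSn (((dE r g).rangeRestrict b)⁻¹ * (dE r g).rangeRestrict (jj w)) (by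
        rw [← map_inv, ← map_mul, mem_U0]
        have h3 : c1 ((b⁻¹ * jj w : GE r g) : St (r + (g + 1))) = -c1 b.1 + c1 (jj w).1 :=
          ((GE_spec b).inv.mul (GE_spec (jj w))).c1_eq
        rw [h3, hb1, hw1, neg_add_cancel])
      rw [← hb, mul_inv_cancel_left] at h2
      exact h2
    · have h2 := hS S hSn (((dE r g).rangeRestrict b)⁻¹ * ((dE r g).rangeRestrict (jj w))⁻¹) (by
        rw [← map_inv, ← map_inv, ← map_mul, mem_U0]
        have h3 : c1 ((b⁻¹ * (jj w)⁻¹ : GE r g) : St (r + (g + 1))) = -c1 b.1 + -c1 (jj w).1 :=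
          ((GE_spec b).inv.mul (GE_spec (jj w)).inv).c1_eq
        rw [h3, hb1, hw1]
        funext i
        by_cases hi : i ∈ S
        · simp [hi]
        · simp [hi])
      rw [← hb, mul_inv_cancel_left] at h2
      exact h2) q hqr
  have hsub := ModuleCat.subsingleton_of_isZero hv
  obtain ⟨p, hp, hp0⟩ := torsion_main_zero (IT (r + (g + 1))) (GE r g) IT_le_GE
    (dE r g).rangeRestrict hker (dE r g).rangeRestrict_surjective ι (upI r (g + 1)) jj
    (fun t => by rw [hjj, hsι, upI_coe]) (Localization.AtPrime P) P.primeCompl q ρ hρ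
    (fun z => by
      have hz : z = 0 := hsub.elim _ _
      rw [hz, map_zero]) x
  exact hp (hIP hp0)

theorem nee_gen (hP : PRM) (hT : TWO) (hR : REL) (q r g : ℕ) (hqr : q < r) (l : Fin r)
    (φ : St (r + (g + 1))) (sig : Fin r → Fin r → ℤ) (hφ : IsE r g (Pi.single l 1) sig φ)
    (x : groupHomology (Rep.trivial ℚ (IT (g + 1)) ℚ) q) :
    ∃ m : ℕ, (((cR (IT (r + (g + 1))) q φ) ^ (2 ^ r).factorial - 1) ^ m)
      (hn (upI r (g + 1)) q x) = 0 := by
  classical
  obtain ⟨Gs, iG, s, ι, W, hsι, hsE, ⟨ε, hε, hW⟩, hvan⟩ := hT r g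
  obtain ⟨hR1, hR2, hR3, _⟩ := hR r g
  have hker : ∀ a : GE r g, (dE r g).rangeRestrict a = 1 ↔ (a : St (r + (g + 1))) ∈
      IT (r + (g + 1)) := by
    intro a
    rw [← dE_eq_one a]
    constructor
    · intro h; exact congrArg Subtype.val h
    · intro h; exact Subtype.ext h
  have hsurj := (dE r g).rangeRestrict_surjective
  set deg := (dE r g).rangeRestrict with hdeg
  obtain ⟨ρ, hρ⟩ := exists_rho (IT (r + (g + 1))) (GE r g) (cR (IT (r + (g + 1))) q)
    (fun a ha => cR_mem _ _ _ ha) deg hker hsurj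
  set y := hn (upI r (g + 1)) q x with hy
  set I := Ann ρ y with hI
  -- the elements e_j
  choose φj hφj using hR2
  let ee : Fin r → St (r + (g + 1)) := fun j => if j = l then φ else φj j
  let ss : Fin r → Fin r → Fin r → ℤ := fun j => if j = l then sig else 0
  have hee : ∀ j, IsE r g (Pi.single j 1) (ss j) (ee j) := by
    intro j
    by_cases h : j = l
    · subst h
      simp only [ss, ee, if_pos]
      exact hφ
    · simp only [ss, ee, if_neg h]
      exact hφj j
  let e' : Fin r → GE r g := fun j => ⟨ee j, _, _, hee j⟩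
  let e : Fin r → (dE r g).range := fun j => deg (e' j)
  have hel : e l = deg ⟨φ, _, _, hφ⟩ := by
    change deg _ = deg _
    congr 1
    apply Subtype.ext
    change (if l = l then φ else φj l) = φ
    rw [if_pos rfl]
  -- U0 acts trivially
  have hfar : ∀ s ∈ U0 r g, (MonoidAlgebra.single s 1 - 1 : MonoidAlgebra ℚ (dE r g).range) ∈ I := by
    intro s hs
    rw [hI, single_mem_Ann]
    obtain ⟨a, rfl⟩ := hsurj s
    rw [mem_U0] at hs
    have ha := GE_spec a
    rw [hs] at ha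
    obtain ⟨ψ, hψ, hψE⟩ := hR1 (c2 a.1) ha.1
    have h1 : deg a = deg ⟨ψ, _, _, hψE⟩ := by
      apply Subtype.ext
      change dE r g a = dE r g ⟨ψ, _, _, hψE⟩
      rw [dE_eq ha, dE_eq (φ := ⟨ψ, _, _, hψE⟩) hψE]
    rw [h1, hρ, hy]
    exact far_fix q hψ x
  -- far symmetries
  have hsym : ∀ j, j ≠ l → ∀ m : ℤ, ∃ σ : (dE r g).range ≃* (dE r g).range,
      (e j * e l ^ m)⁻¹ * σ (e j) ∈ U0 r g ∧
      (∀ i, i ≠ j → (e i)⁻¹ * σ (e i) ∈ U0 r g) ∧ (∀ s ∈ U0 r g, σ s ∈ U0 r g) ∧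
      ∀ p ∈ I, MonoidAlgebra.mapDomainRingHom ℚ (σ : (dE r g).range →* (dE r g).range) p ∈ I := by
    intro j hj m
    obtain ⟨ψ, hψ, hψv, hψj, hψi⟩ := hR3 j l hj m
    let M : Fin r → Fin r → ℤ := fun i k =>
      (if i = k then (1 : ℤ) else 0) + if i = j ∧ k = l then m else 0
    let M' : Fin r → Fin r → ℤ := fun i k =>
      (if i = k then (1 : ℤ) else 0) + if i = j ∧ k = l then -m else 0
    have hM : ∀ i, hact ψ (cf r g i) = ∑ k, M i k • cf r g k := by
      intro i
      rw [mat_sum j l m i]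
      by_cases h : i = j
      · subst h; rw [if_pos rfl, hψj]
      · rw [if_neg h, add_zero, hψi i h]
    have hinv : ∀ w z, hact ψ w = z → hact ψ⁻¹ z = w := by
      intro w z h
      rw [← h, ← hact_mul, inv_mul_cancel, hact_one]
    have hM' : ∀ i, hact ψ⁻¹ (cf r g i) = ∑ k, M' i k • cf r g k := by
      intro i
      rw [mat_sum j l (-m) i]
      apply hinv
      by_cases h : i = j
      · subst h
        rw [if_pos rfl, hact_add, hψj, hact_smul, hψi l (Ne.symm hj)]
        module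
      · rw [if_neg h, add_zero, hψi i h]
    have hv' : hact ψ⁻¹ (vn r g) = vn r g := hinv _ _ hψv
    have h1 : ∀ a ∈ GE r g, ψ * a * ψ⁻¹ ∈ GE r g := by
      rintro a ⟨l', s', ha⟩
      exact ⟨_, _, ha.conj ψ hψv M hM⟩
    have h2 : ∀ a ∈ GE r g, ψ⁻¹ * a * ψ ∈ GE r g := by
      rintro a ⟨l', s', ha⟩
      have := ha.conj ψ⁻¹ hv' M' hM'
      rw [inv_inv] at this
      exact ⟨_, _, this⟩
    obtain ⟨σ, hσ⟩ := conj_equiv (IT (r + (g + 1))) (GE r g) deg hker hsurj ψ h1 h2
    have hc1 : ∀ (a : GE r g), c1 (ψ * a.1 * ψ⁻¹) = fun k => ∑ i, c1 a.1 i * M i k := by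
      intro a
      exact ((GE_spec a).conj ψ hψv M hM).c1_eq
    have hmulU : ∀ a b : GE r g, ((deg a)⁻¹ * deg b ∈ U0 r g ↔ c1 b.1 = c1 a.1) := by
      intro a b
      rw [← map_inv, ← map_mul, mem_U0]
      have h3 : c1 ((a⁻¹ * b : GE r g) : St (r + (g + 1))) = -c1 a.1 + c1 b.1 :=
        ((GE_spec a).inv.mul (GE_spec b)).c1_eq
      rw [h3]
      constructor
      · intro h
        have := neg_add_eq_zero.1 h
        exact this.symm
      · intro h; rw [h, neg_add_cancel]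
    refine ⟨σ, ?_, ?_, ?_, ?_⟩
    · change (deg (e' j) * deg (e' l) ^ m)⁻¹ * σ (deg (e' j)) ∈ _
      rw [hσ, ← map_zpow, ← map_mul, hmulU]
      change c1 (ψ * (e' j).1 * ψ⁻¹) = c1 (((e' j * e' l ^ m : GE r g)) : St (r + (g + 1)))
      rw [hc1, (hee j).c1_eq, mat_single j l m j, if_pos rfl]
      have h3 : ∀ k : ℤ, c1 ((e' l ^ k : GE r g) : St (r + (g + 1))) = k • c1 (e' l).1 := by
        intro k
        have h4 : dE r g (e' l ^ k) = dE r g (e' l) ^ k := map_zpow _ _ _
        have h5 := congrArg (fun z : Multiplicative ((Fin r → ℤ) × (Fin r → Fin r → ℤ)) =>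
          (Multiplicative.toAdd z).1) h4
        exact h5
      have h4 : c1 ((e' j * e' l ^ m : GE r g) : St (r + (g + 1))) =
          c1 (e' j).1 + c1 ((e' l ^ m : GE r g) : St (r + (g + 1))) :=
        ((GE_spec (e' j)).mul (GE_spec (e' l ^ m))).c1_eq
      rw [h4, h3]
      have h5 : c1 (e' j).1 = Pi.single j 1 := (hee j).c1_eq
      have h6 : c1 (e' l).1 = Pi.single l 1 := (hee l).c1_eq
      rw [h5, h6]
    · intro i hi
      change (deg (e' i))⁻¹ * σ (deg (e' i)) ∈ _
      rw [hσ, hmulU]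
      change c1 (ψ * (e' i).1 * ψ⁻¹) = c1 (e' i).1
      have h5 : c1 (e' i).1 = Pi.single i 1 := (hee i).c1_eq
      rw [hc1, h5, mat_single j l m i, if_neg hi, add_zero]
    · intro s hs
      obtain ⟨a, rfl⟩ := hsurj s
      rw [mem_U0] at hs
      rw [hσ, mem_U0]
      change c1 (ψ * a.1 * ψ⁻¹) = 0
      rw [hc1, hs]
      funext k
      simp
    · intro p hp
      refine Ann_conj ρ (σ : (dE r g).range →* (dE r g).range)
        (cR (IT (r + (g + 1))) q ψ) (cR (IT (r + (g + 1))) q ψ⁻¹) ?_ y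
        (far_fix q (far_inv hψ) x) p hp
      intro u
      obtain ⟨a, rfl⟩ := hsurj u
      have h3 : ρ ((σ : (dE r g).range →* (dE r g).range) (deg a)) =
          cR (IT (r + (g + 1))) q (ψ * a.1 * ψ⁻¹) := by
        change ρ (σ (deg a)) = _
        rw [hσ, hρ]
      rw [h3, map_mul, map_mul, hρ]
  -- primes
  have hprime : ∀ P : Ideal (MonoidAlgebra ℚ (dE r g).range), P.IsPrime → I ≤ P →
      (∀ S : Finset (Fin r), S.Nonempty → ∀ s ∈ U0 r g,
        (MonoidAlgebra.single ((∏ j ∈ S, e j) * s) 1 - 1 : MonoidAlgebra ℚ (dE r g).range) ∉ P) →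
      False := by
    intro P hPp hIP hS
    exact no_prime hqr Gs s ι W hsι hsE ε hε hW hvan hker ρ hρ x e'
      (fun i => (hee i).c1_eq) P hPp hIP hS
  obtain ⟨m, hm⟩ := hP (dE r g).range r (U0 r g) e l I hfar hsym hprime
  refine ⟨m, ?_⟩
  rw [hI, mem_Ann] at hm
  rw [map_pow, map_sub, map_one, MonoidAlgebra.lift_single, one_smul, map_pow, hel, hρ] at hm
  exact hm

theorem nee (hP : PRM) (hT : TWO) (hR : REL) : NEE := fun q g l φ sig hφ x =>
  nee_gen hP hT hR q (q + 1) g (Nat.lt_succ_self q) l φ sig hφ x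

end Pool.Agent.TNF
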