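import Pool.Agent.Helper18_TNF.Lin
import Pool.Agent.Helper41_TOR.Nt

/-! TOWQ (output of the tower, no homology) and TOWQ → TWO. -/

set_option autoImplicit false

namespace Pool.Agent.TNF

open CategoryTheory Rep Representation Pool.Agent.TOR Pool.Agent.TOR.H59
open Pool.Agent.TOR96 Pool.Agent.TOR.H29 Pool.Agent.TOR.SA

/-- output of the tower -/
def TOWQ : Prop := ∀ K g : ℕ, ∃ (Gt : Type) (_ : Group Gt) (S : Subgroup Gt)
  (s : S →* St (K + (g + 1))) (ι : IT (g + 1) →* S) (W : Set Gt) (ε : ℤ),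
  (ε = 1 ∨ ε = -1) ∧ IsTower Gt K W ∧ (∀ x, s (ι x) = up K (g + 1) x) ∧
  (∀ t : S, ∃ lam sig, IsE K g lam sig (s t)) ∧
  ∀ w ∈ W, ∀ h : Gt, ∃ t : S, (t : Gt) = h * w * h⁻¹ ∧ ∃ I : Finset (Fin K), I.Nonempty ∧
    ∃ sig, IsE K g (fun i => if i ∈ I then ε else 0) sig (s t)

theorem two_of (h : TOWQ) : TWO := by
  intro r g
  obtain ⟨Gt, iG, S, s, ι, W, ε, hε, hT, hι, hE, hW⟩ := h r g
  refine ⟨S, inferInstance, s, ι, fun I => {t | (∃ sig, IsE r g
    (fun i => if i ∈ I then ε else 0) sig (s t))}, hι, hE, ⟨ε, hε, fun I _ w hw => hw⟩, ?_⟩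
  intro R _ u hu q hq
  refine tower_van hT S (chRep R u) ?_ q hq
  intro w hw h
  obtain ⟨t, ht, I, hI, hsig⟩ := hW w hw h
  refine ⟨t, ht, ?_⟩
  have h4 : IsUnit (u t - 1) := hu I hI t hsig
  have h5 : ∀ a : R, u t * a - a = (u t - 1) * a := fun a => by ring
  change Function.Bijective (fun a : R => u t * a - a)
  simp only [h5]
  exact Units.mulLeft_bijective h4.unit

end Pool.Agent.TNF
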