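import Pool.Agent.Helper18_TNF.Nee
import Pool.Agent.Helper18_TNF.Two
import Pool.Agent.Helper36_TNF.Rel
import Pool.Agent.Helper36_TNF.Hei
import Pool.Agent.Helper41_TNF.Prm

/-! Near-far block: NU from the tower. -/

set_option autoImplicit false

namespace Pool.Agent.TNF

open Pool.Agent.TOR.SA

theorem nut_of_two (h : TWO) : NUT := H36.hei (nee H41.prm h H36.rel)

theorem nu_of_two (h : TWO) : ∀ q, ∃ M K c, 1 ≤ M ∧ NU q M K c := fun q =>
  let ⟨M, hM, hn⟩ := nut_of_two h q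
  ⟨M, q + 1, 1, hM, hn⟩

theorem nu_of_towq (h : TOWQ) : ∀ q, ∃ M K c, 1 ≤ M ∧ NU q M K c := nu_of_two (two_of h)

end Pool.Agent.TNF
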