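import Pool.Agent.Helper36_TOR.Stmts
import Pool.Agent.Helper76_TOR.TwS

/-! Part (a) of S01763, near-far block (table tnf): statements of the last modules. -/

set_option autoImplicit false

namespace Pool.Agent.TNF

open CategoryTheory Rep Representation Pool.Agent.TOR Pool.Agent.TOR.H59
open Pool.Agent.TOR96 Pool.Agent.TOR.H29 Pool.Agent.TOR.SA

/-- PRM: commutative algebra of the primes (greedy choice of the feet).
`e j` = the transvection E_(v,c_j), `l` = the distinguished foot, `U0` = the Sym² part, which acts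
trivially on the class, `σ` = far symmetries c_j ↦ c_j + m c_l. -/
def PRM : Prop := ∀ (U : Type) [CommGroup U] (r : ℕ) (U0 : Subgroup U) (e : Fin r → U) (l : Fin r)
  (I : Ideal (MonoidAlgebra ℚ U)),
  (∀ s ∈ U0, (MonoidAlgebra.single s 1 - 1 : MonoidAlgebra ℚ U) ∈ I) →
  (∀ j, j ≠ l → ∀ m : ℤ, ∃ σ : U ≃* U, (e j * e l ^ m)⁻¹ * σ (e j) ∈ U0 ∧
    (∀ i, i ≠ j → (e i)⁻¹ * σ (e i) ∈ U0) ∧ (∀ s ∈ U0, σ s ∈ U0) ∧
    ∀ p ∈ I, MonoidAlgebra.mapDomainRingHom ℚ (σ : U →* U) p ∈ I) →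
  (∀ P : Ideal (MonoidAlgebra ℚ U), P.IsPrime → I ≤ P →
    (∀ S : Finset (Fin r), S.Nonempty → ∀ s ∈ U0,
      (MonoidAlgebra.single ((∏ j ∈ S, e j) * s) 1 - 1 : MonoidAlgebra ℚ U) ∉ P) → False) →
  ∃ m : ℕ, (MonoidAlgebra.single (e l ^ (2 ^ r).factorial) 1 - 1 : MonoidAlgebra ℚ U) ^ m ∈ I

/-- the classes of the feet: y-class of the far handle i -/
def cf (r g : ℕ) (i : Fin r) : Hh (r + (g + 1)) := Pi.single (1, Fin.castAdd (g + 1) i) 1

/-- x-class of the far handle i -/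
def xf (r g : ℕ) (i : Fin r) : Hh (r + (g + 1)) := Pi.single (0, Fin.castAdd (g + 1) i) 1

/-- the near class: y-class of the last handle -/
def vn (r g : ℕ) : Hh (r + (g + 1)) := Pi.single (1, Fin.natAdd r (Fin.last g)) 1

/-- φ acts on homology as x ↦ x + ω(x,v) λ + ω(x,λ) v + Σ σ_ij ω(x,c_i) c_j, λ = Σ λ_i c_i -/
def IsE (r g : ℕ) (lam : Fin r → ℤ) (sig : Fin r → Fin r → ℤ) (φ : St (r + (g + 1))) : Prop :=
  (∀ i j, sig i j = sig j i) ∧ ∀ x, ev (app φ x) = ev x +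
    sf (ev x) (vn r g) • (∑ i, lam i • cf r g i) +
    sf (ev x) (∑ i, lam i • cf r g i) • vn r g +
    ∑ i, ∑ j, (sig i j * sf (ev x) (cf r g i)) • cf r g j

/-- TWO: output of the tower and of the vanishing theorem BR_sub.  Near genus g + 1, r feet.
`W S` = all conjugates (in the big group Gt) of the simultaneous push of the feet in S. -/
def TWO : Prop := ∀ (r g : ℕ), ∃ (Gs : Type) (_ : Group Gs)
  (s : Gs →* St (r + (g + 1))) (ι : IT (g + 1) →* Gs) (W : Finset (Fin r) → Set Gs),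
  (∀ φ, s (ι φ) = up r (g + 1) φ) ∧
  (∀ h : Gs, ∃ lam sig, IsE r g lam sig (s h)) ∧
  (∃ ε : ℤ, (ε = 1 ∨ ε = -1) ∧ ∀ S : Finset (Fin r), S.Nonempty → ∀ w ∈ W S,
    ∃ sig, IsE r g (fun i => if i ∈ S then ε else 0) sig (s w)) ∧
  ∀ (R : Type) [CommRing R] (u : Gs →* R),
    (∀ S : Finset (Fin r), S.Nonempty → ∀ w ∈ W S, IsUnit (u w - 1)) →
    ∀ q < r, Van (chRep R u) q

/-- far elements: they commute with the extensions of near elements -/
def Far (r g : ℕ) (ψ : St (r + (g + 1))) : Prop :=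
  ∀ χ : St (g + 1), ψ * up r (g + 1) χ = up r (g + 1) χ * ψ

/-- REL: realisation of the elements used in the near-far argument -/
def REL : Prop := ∀ (r g : ℕ),
  -- Sym² elements are far
  (∀ sig : Fin r → Fin r → ℤ, (∀ i j, sig i j = sig j i) → ∃ ψ, Far r g ψ ∧ IsE r g 0 sig ψ) ∧
  -- the transvections E_(v,c_j)
  (∀ j : Fin r, ∃ φ, IsE r g (Pi.single j 1) 0 φ) ∧
  -- far symmetries c_j ↦ c_j + m c_l
  (∀ j l : Fin r, j ≠ l → ∀ m : ℤ, ∃ ψ, Far r g ψ ∧ hact ψ (vn r g) = vn r g ∧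
    hact ψ (cf r g j) = cf r g j + m • cf r g l ∧ ∀ i, i ≠ j → hact ψ (cf r g i) = cf r g i) ∧
  -- rotation of a far handle
  (∀ l : Fin r, ∃ ψ, Far r g ψ ∧ hact ψ (vn r g) = vn r g ∧ hact ψ (cf r g l) = xf r g l)

/-- quasi-unipotence of E_(v,c_l) on the near classes -/
def NEE : Prop := ∀ (q g : ℕ) (l : Fin (q + 1)) (φ : St (q + 1 + (g + 1)))
  (sig : Fin (q + 1) → Fin (q + 1) → ℤ), IsE (q + 1) g (Pi.single l 1) sig φ →
  ∀ x : groupHomology (Rep.trivial ℚ (IT (g + 1)) ℚ) q,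
    ∃ m : ℕ, (((cR (IT (q + 1 + (g + 1))) q φ) ^ (2 ^ (q + 1)).factorial - 1) ^ m)
      (hn (upI (q + 1) (g + 1)) q x) = 0

/-- the final result of the near-far block: NU of helper36 with K = q + 1 far handles -/
def NUT : Prop := ∀ q, ∃ M, 1 ≤ M ∧ NU q M (q + 1) 1

end Pool.Agent.TNF
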