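import Pool.Agent.Helper18_TNF.Nu
import Pool.Agent.Helper76_TOR.TwI
import Pool.Agent.Helper20_TOW.The
import Pool.Agent.Helper98_TOR.Birm

/-! NU from the last two tower modules. -/

set_option autoImplicit false

namespace Pool.Agent.TNF

open Pool.Agent.TOR.SA

theorem towq_of (h : Pool.Agent.TOW.TOWQ) : TOWQ := h

theorem nu_of_gen0_homq (hG : Pool.Agent.TOW.GEN0) (hH : Pool.Agent.TOW.HOMQ) :
    ∀ q, ∃ M K c, 1 ≤ M ∧ NU q M K c :=
  nu_of_towq (towq_of (Pool.Agent.TOW.towq Pool.Agent.TOR.H98.birm Pool.Agent.TOW.H20.the hG hH))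

end Pool.Agent.TNF
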